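import Mathlib

set_option autoImplicit false

namespace Pool.Agent.Results.MP_8cfbc5_co.Threshold

open Finset

/-- real sequence space of square summable sequences -/
abbrev H := lp (fun _ : ℕ => ℝ) 2

/-- property `P(δ)`: a positive proportion of any finite family of points spans no bad triangle -/
def Prp (δ : ℝ) : Prop :=
  ∃ l : ℝ, 0 < l ∧ ∀ n : ℕ, 1 ≤ n → ∀ x : Fin n → H, ∃ I : Finset (Fin n), l * n ≤ I.card ∧
    ∀ i ∈ I, ∀ j ∈ I, ∀ k ∈ I, i ≠ j → j ≠ k → i ≠ k →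
      ¬ (‖x i - x j‖ ≤ 1 ∧ ‖x j - x k‖ ≤ 1 ∧ 1 + δ ≤ ‖x i - x k‖)

lemma holds (δ : ℝ) (hδ : 1 ≤ δ) : Prp δ := by
  refine ⟨1 / 4, by norm_num, fun n _ x => ?_⟩
  let c : Fin n → ℤ := fun i => ⌊‖x i‖ ^ 2⌋ % 4
  obtain ⟨y, -, hy⟩ := exists_le_sum_fiber_of_maps_to_of_nsmul_le_sum (s := (univ : Finset (Fin n)))
    (t := ({0, 1, 2, 3} : Finset ℤ)) (f := c) (w := fun _ => (1 : ℝ)) (b := 1 / 4 * n)
    (fun i _ => by simp only [c, mem_insert, mem_singleton]; omega) ⟨0, by simp⟩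
    (by rw [show ({0, 1, 2, 3} : Finset ℤ).card = 4 from rfl]; simp)
  refine ⟨univ.filter (fun i => c i = y), by simpa using hy, ?_⟩
  rintro i hi j hj k hk - - - ⟨h1, h2, h3⟩
  have p1 := parallelogram_law_with_norm ℝ (x i - x j) (x k - x j)
  rw [norm_sub_rev] at h2
  rw [show x i - x j - (x k - x j) = x i - x k by abel] at p1
  have a1 := norm_nonneg (x i - x j)
  have a2 := norm_nonneg (x k - x j)
  have a3 := norm_nonneg (x i - x j + (x k - x j))
  have e0 : ‖x i - x j + (x k - x j)‖ = 0 := by nlinarith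
  have e1 : ‖x i - x j‖ ^ 2 = 1 := by nlinarith
  have e2 : x k = x j - (x i - x j) := by
    have := norm_eq_zero.1 e0
    rw [eq_sub_iff_add_eq, ← sub_eq_zero, ← this]; abel
  have p2 := parallelogram_law_with_norm ℝ (x j) (x i - x j)
  rw [← e2, show x j + (x i - x j) = x i by abel, e1] at p2
  have ci := (mem_filter.1 hi).2
  have cj := (mem_filter.1 hj).2
  have ck := (mem_filter.1 hk).2
  simp only [c] at ci cj ck
  have f1 := Int.floor_le (‖x i‖ ^ 2)
  have f2 := Int.lt_floor_add_one (‖x i‖ ^ 2)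
  have f3 := Int.floor_le (‖x j‖ ^ 2)
  have f4 := Int.lt_floor_add_one (‖x j‖ ^ 2)
  have f5 := Int.floor_le (‖x k‖ ^ 2)
  have f6 := Int.lt_floor_add_one (‖x k‖ ^ 2)
  have g1 : (0 : ℝ) < ((⌊‖x i‖ ^ 2⌋ + ⌊‖x k‖ ^ 2⌋ - 2 * ⌊‖x j‖ ^ 2⌋ : ℤ) : ℝ) := by
    push_cast; nlinarith
  have g2 : ((⌊‖x i‖ ^ 2⌋ + ⌊‖x k‖ ^ 2⌋ - 2 * ⌊‖x j‖ ^ 2⌋ : ℤ) : ℝ) < 4 := by
    push_cast; nlinarith
  have g1' : 0 < ⌊‖x i‖ ^ 2⌋ + ⌊‖x k‖ ^ 2⌋ - 2 * ⌊‖x j‖ ^ 2⌋ := by exact_mod_cast g1
  have g2' : ⌊‖x i‖ ^ 2⌋ + ⌊‖x k‖ ^ 2⌋ - 2 * ⌊‖x j‖ ^ 2⌋ < 4 := by exact_mod_cast g2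
  omega

lemma var_id {α : Type} [Fintype α] (f : α → ℝ) :
    ∑ x, ∑ y, (f x - f y) ^ 2 = 2 * (Fintype.card α * ∑ x, f x ^ 2 - (∑ x, f x) ^ 2) := by
  have : ∀ x y, (f x - f y) ^ 2 = f x ^ 2 + f y ^ 2 - 2 * (f x * f y) := fun x y => by ring
  simp only [this, sum_sub_distrib, sum_add_distrib, sum_const, card_univ, nsmul_eq_mul, ← mul_sum,
    ← sum_mul]
  ring

noncomputable def ham {Ω : Type} [DecidableEq Ω] {n : ℕ} (x y : Fin n → Ω) : ℝ :=
  ∑ i, if x i = y i then 0 else 1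

lemma efron {Ω : Type} [Fintype Ω] [DecidableEq Ω] (n : ℕ) : ∀ f : (Fin n → Ω) → ℝ,
    (∀ x y, f x ≤ f y + ham x y) →
    (Fintype.card Ω : ℝ) ^ n * ∑ x, f x ^ 2 - (∑ x, f x) ^ 2 ≤ n * ((Fintype.card Ω : ℝ) ^ n) ^ 2 := by
  induction n with
  | zero => intro f _; simp
  | succ n ih =>
    intro f hf
    have cv : ∀ g : (Fin (n + 1) → Ω) → ℝ, ∑ x, g x = ∑ a : Ω, ∑ x : Fin n → Ω, g (Fin.cons a x) := by
      intro g
      rw [← (Fin.consEquiv (fun _ => Ω)).sum_comp, Fintype.sum_prod_type]; rfl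
    rw [cv, cv f]
    set q : ℝ := (Fintype.card Ω : ℝ) with hq
    have hq0 : 0 ≤ q := by positivity
    set M := q ^ n with hM
    have hM0 : 0 ≤ M := by positivity
    set S : Ω → ℝ := fun a => ∑ x : Fin n → Ω, f (Fin.cons a x) with hS
    have h1 : ∀ a, M * ∑ x : Fin n → Ω, f (Fin.cons a x) ^ 2 ≤ n * M ^ 2 + S a ^ 2 := by
      intro a
      have := ih (fun x => f (Fin.cons a x)) (fun x y => by
        have := hf (Fin.cons a x) (Fin.cons a y)
        simpa [ham, Fin.sum_univ_succ] using this)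
      linarith
    have h2 : ∀ a b, S a - S b ≤ M := by
      intro a b
      have : ∀ x : Fin n → Ω, f (Fin.cons a x) - f (Fin.cons b x) ≤ 1 := by
        intro x
        have := hf (Fin.cons a x) (Fin.cons b x)
        simp only [ham, Fin.sum_univ_succ, Fin.cons_zero, Fin.cons_succ, if_true, sum_const_zero,
          add_zero] at this
        split_ifs at this <;> linarith
      have h := sum_le_sum (fun x (_ : x ∈ (univ : Finset (Fin n → Ω))) => this x)
      rw [sum_sub_distrib] at h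
      simpa [hM, hq] using h
    have h3 : ∑ a, ∑ b, (S a - S b) ^ 2 ≤ ∑ _a : Ω, ∑ _b : Ω, M ^ 2 :=
      sum_le_sum fun a _ => sum_le_sum fun b _ => by
        have := h2 a b; have := h2 b a; nlinarith
    rw [var_id] at h3
    have h4 := sum_le_sum (fun a (_ : a ∈ (univ : Finset Ω)) => h1 a)
    simp only [sum_add_distrib, sum_const, card_univ, nsmul_eq_mul, ← mul_sum, ← hq] at h3 h4
    have h5 := mul_le_mul_of_nonneg_left h4 hq0
    push_cast
    rw [pow_succ, ← hM]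
    have : 0 ≤ q ^ 2 * M ^ 2 := by positivity
    nlinarith

lemma blow {N : ℕ} [NeZero N] (l κ : ℝ) (hl : 0 < l) (hκ : 0 < κ) (n : ℕ) (hn : 6 / (l * κ ^ 2) ≤ n)
    (A : Finset (Fin n → ZMod N)) (hA : l * (N : ℝ) ^ n ≤ A.card) :
    ∃ x : Fin n → ZMod N, ∃ a ∈ A, ∃ b ∈ A, ∃ c ∈ A,
      ham x a ≤ κ * n ∧ ham (x + 1) b ≤ κ * n ∧ ham (x + 2) c ≤ κ * n := by
  have hN : (0 : ℝ) < N := by exact_mod_cast NeZero.pos N
  have hM : (0 : ℝ) < (N : ℝ) ^ n := by positivity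
  have hne : A.Nonempty := by
    rw [← card_pos]
    have : (0 : ℝ) < A.card := lt_of_lt_of_le (by positivity) hA
    exact_mod_cast this
  choose g hg1 hg2 using fun x => exists_min_image A (fun a => ham x a) hne
  let f : (Fin n → ZMod N) → ℝ := fun x => ham x (g x)
  have hn0 : ∀ x y : Fin n → ZMod N, 0 ≤ ham x y := fun x y =>
    sum_nonneg fun i _ => by split_ifs <;> norm_num
  have lip : ∀ x y, f x ≤ f y + ham x y := by
    intro x y
    refine (hg2 x _ (hg1 y)).trans ?_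
    simp only [f, ham, ← sum_add_distrib]
    refine sum_le_sum fun i _ => ?_
    split_ifs <;> simp_all
  have f0 : ∀ a ∈ A, f a = 0 := fun a ha =>
    le_antisymm ((hg2 a a ha).trans (by simp [ham])) (hn0 _ _)
  have es := efron n f lip
  have vi := var_id f
  simp only [ZMod.card, Fintype.card_fun, Fintype.card_fin] at es vi
  push_cast at vi
  have low : (A.card : ℝ) * ∑ x, f x ^ 2 ≤ ∑ x, ∑ y, (f x - f y) ^ 2 := by
    rw [mul_sum]
    refine sum_le_sum fun x _ => ?_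
    refine le_trans ?_ (sum_le_sum_of_subset_of_nonneg (subset_univ A) fun _ _ _ => sq_nonneg _)
    rw [sum_congr rfl (fun y hy => by rw [f0 y hy, sub_zero]), sum_const, nsmul_eq_mul]
  by_contra hcon
  have big : ∀ x, (κ * n) ^ 2 < f x ^ 2 + f (x + 1) ^ 2 + f (x + 2) ^ 2 := by
    intro x
    by_contra hh
    have k0 : 0 ≤ κ * n := by positivity
    have hh := not_lt.1 hh
    refine hcon ⟨x, _, hg1 x, _, hg1 (x + 1), _, hg1 (x + 2), ?_, ?_, ?_⟩
    · exact (pow_le_pow_iff_left₀ (hn0 _ _) k0 two_ne_zero).1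
        (by nlinarith [sq_nonneg (f (x + 1)), sq_nonneg (f (x + 2))] : f x ^ 2 ≤ _)
    · exact (pow_le_pow_iff_left₀ (hn0 _ _) k0 two_ne_zero).1
        (by nlinarith [sq_nonneg (f x), sq_nonneg (f (x + 2))] : f (x + 1) ^ 2 ≤ _)
    · exact (pow_le_pow_iff_left₀ (hn0 _ _) k0 two_ne_zero).1
        (by nlinarith [sq_nonneg (f (x + 1)), sq_nonneg (f x)] : f (x + 2) ^ 2 ≤ _)
  have s1 := sum_lt_sum_of_nonempty univ_nonempty (fun x (_ : x ∈ univ) => big x)
  have sh : ∀ v : Fin n → ZMod N, ∑ x, f (x + v) ^ 2 = ∑ x, f x ^ 2 := fun v =>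
    Equiv.sum_comp (Equiv.addRight v) (fun x => f x ^ 2)
  rw [sum_add_distrib, sum_add_distrib, sh, sh] at s1
  simp only [sum_const, card_univ, ZMod.card, Fintype.card_fun, Fintype.card_fin, nsmul_eq_mul] at s1
  push_cast at s1
  set M := (N : ℝ) ^ n
  set Q := ∑ x, f x ^ 2
  have Q0 : 0 ≤ Q := sum_nonneg fun _ _ => sq_nonneg _
  have t1 : l * M * Q ≤ 2 * (n * M ^ 2) := by
    have := mul_le_mul_of_nonneg_right hA Q0
    linarith
  rw [div_le_iff₀ (by positivity)] at hn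
  have t2 : l * Q ≤ 2 * n * M := by
    have : M * (l * Q) ≤ M * (2 * n * M) := by nlinarith
    exact le_of_mul_le_mul_left this hM
  have t3 : l * (M * (κ * n) ^ 2) < l * (Q + Q + Q) := mul_lt_mul_of_pos_left s1 hl
  have t4 : 0 ≤ (n : ℝ) * M := by positivity
  have t5 := mul_le_mul_of_nonneg_left hn t4
  nlinarith

lemma embed (n : ℕ) : ∃ F : (Fin n → ℂ) → H, (∀ (c : ℝ) z w, ‖c • F z - c • F w‖ ^ 2 =
    c ^ 2 * ∑ i, ‖z i - w i‖ ^ 2) := by
  let e : HilbertBasis ℕ ℝ H := default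
  have ho : Orthonormal ℝ (fun p : Fin n × Bool => e (Encodable.encode p)) :=
    e.orthonormal.comp _ Encodable.encode_injective
  let co : (Fin n → ℂ) → Fin n × Bool → ℝ := fun z p => if p.2 then (z p.1).re else (z p.1).im
  refine ⟨fun z => ∑ p, co z p • e (Encodable.encode p), fun c z w => ?_⟩
  rw [← smul_sub, norm_smul, mul_pow, Real.norm_eq_abs, sq_abs, ← sum_sub_distrib]
  simp only [← sub_smul]
  rw [← real_inner_self_eq_norm_sq, ho.inner_sum, Fintype.sum_prod_type]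
  congr 1
  refine sum_congr rfl fun i _ => ?_
  rw [Complex.sq_norm, Complex.normSq_apply]
  simp [co]

lemma fails (δ : ℝ) (h0 : 0 < δ) (h1 : δ < 1) : ¬ Prp δ := by
  classical
  rintro ⟨l, hl, hP⟩
  obtain ⟨N, hN⟩ := exists_nat_gt (8 / (1 - δ))
  have hN8 : (8 : ℝ) < N := by
    refine lt_of_le_of_lt ?_ hN
    rw [le_div_iff₀ (by linarith)]; linarith
  have : NeZero N := ⟨by rintro rfl; norm_num at hN8⟩
  let ψ := ZMod.stdAddChar (N := N)
  have hψ : ∀ a, ‖ψ a‖ = 1 := fun a => AddChar.norm_apply ψ a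
  set ζ := ψ 1 with hζ
  set s := ‖ζ - 1‖ with hs
  set τ := ‖ζ + 1‖ with hτ
  have hs0 : 0 < s := by
    rw [hs, norm_pos_iff, sub_ne_zero]
    intro e
    have := ZMod.injective_stdAddChar (N := N) (e.trans (AddChar.map_zero_eq_one ψ).symm)
    have h2 : Fact (1 < N) := ⟨by exact_mod_cast (show (1 : ℝ) < N by linarith)⟩
    exact one_ne_zero this
  have hs1 : s ≤ 1 - δ := by
    have e : ζ = Complex.exp (Complex.I * ((2 * Real.pi / N : ℝ) : ℂ)) := by
      have := ZMod.stdAddChar_coe (N := N) 1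
      rw [Int.cast_one] at this
      rw [hζ, this]; congr 1; push_cast; ring
    rw [hs, e]
    refine (Real.norm_exp_I_mul_ofReal_sub_one_le).trans ?_
    rw [Real.norm_eq_abs, abs_of_pos (by positivity), div_le_iff₀ (by linarith)]
    rw [div_lt_iff₀ (by linarith)] at hN
    nlinarith [Real.pi_lt_four]
  have par : τ ^ 2 + s ^ 2 = 4 := by
    have := parallelogram_law_with_norm ℝ ζ 1
    rw [hψ, norm_one] at this
    linarith
  have hτ0 : 0 ≤ τ := norm_nonneg _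
  have hτ1 : 1 + δ < τ := by nlinarith
  have hτ2 : τ ≤ 2 := by nlinarith
  set η := (τ - 1 - δ) / 3 with hη
  have hη0 : 0 < η := by linarith
  have hη1 : η < 1 := by linarith
  set κ := η ^ 2 * s ^ 2 / 16 with hκ
  have hκ0 : 0 < κ := by positivity
  obtain ⟨n, hn⟩ := exists_nat_gt (6 / (l * κ ^ 2))
  have hn0 : (0 : ℝ) < n := lt_trans (by positivity) hn
  obtain ⟨F, hF⟩ := embed n
  set c : ℝ := 1 / (√n * s * (1 + η)) with hc
  have hc0 : 0 < c := by positivity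
  let X : (Fin n → ZMod N) → H := fun x => c • F (fun i => ψ (x i))
  let eq := Fintype.equivFin (Fin n → ZMod N)
  obtain ⟨I, hI1, hI2⟩ := hP _ Fintype.card_pos (fun i => X (eq.symm i))
  obtain ⟨x, a, ha, b, hb, d, hd, m1, m2, m3⟩ := blow l κ hl hκ0 n hn.le (I.image eq.symm) (by
    rw [card_image_of_injective _ eq.symm.injective]
    simpa using hI1)
  have hsq : (√n : ℝ) ^ 2 = n := Real.sq_sqrt hn0.le
  have near : ∀ y z, ham y z ≤ κ * n → ‖X y - X z‖ ≤ η / (2 * (1 + η)) := by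
    intro y z h
    refine (pow_le_pow_iff_left₀ (norm_nonneg _) (by positivity) two_ne_zero).1 ?_
    rw [hF]
    have : ∑ i, ‖ψ (y i) - ψ (z i)‖ ^ 2 ≤ 4 * ham y z := by
      rw [ham, mul_sum]
      refine sum_le_sum fun i _ => ?_
      split_ifs with e
      · simp [e]
      · have := norm_sub_le (ψ (y i)) (ψ (z i))
        rw [hψ, hψ] at this
        nlinarith [norm_nonneg (ψ (y i) - ψ (z i))]
    refine (mul_le_mul_of_nonneg_left (this.trans (by linarith : _ ≤ 4 * (κ * n))) (by positivity)).trans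
      (le_of_eq ?_)
    rw [hc, hκ, div_pow, mul_pow, mul_pow, hsq]; field_simp; ring
  have step1 : ∀ y, ‖X y - X (y + 1)‖ = 1 / (1 + η) := by
    intro y
    refine (pow_left_inj₀ (norm_nonneg _) (by positivity) two_ne_zero).1 ?_
    rw [hF]
    have : ∀ i, ‖ψ (y i) - ψ ((y + 1) i)‖ = s := by
      intro i
      rw [Pi.add_apply, Pi.one_apply, AddChar.map_add_eq_mul, norm_sub_rev, ← mul_sub_one,
        norm_mul, hψ, one_mul]
    simp only [this, sum_const, card_univ, Fintype.card_fin, nsmul_eq_mul]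
    rw [hc, div_pow, mul_pow, mul_pow, hsq]; field_simp
  have step2 : ‖X x - X (x + 2)‖ = τ / (1 + η) := by
    refine (pow_left_inj₀ (norm_nonneg _) (by positivity) two_ne_zero).1 ?_
    rw [hF]
    have : ∀ i, ‖ψ (x i) - ψ ((x + 2) i)‖ = s * τ := by
      intro i
      rw [Pi.add_apply, show (2 : Fin n → ZMod N) i = 1 + 1 from one_add_one_eq_two.symm,
        AddChar.map_add_eq_mul, AddChar.map_add_eq_mul, norm_sub_rev, ← mul_sub_one,
        norm_mul, hψ, one_mul, ← norm_mul]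
      congr 1; ring
    simp only [this, sum_const, card_univ, Fintype.card_fin, nsmul_eq_mul]
    rw [hc, div_pow, mul_pow, mul_pow, hsq]; field_simp
  have n1 := near _ _ m1
  have n2 := near _ _ m2
  have n3 := near _ _ m3
  have s1 := step1 x
  have s2 := step1 (x + 1)
  rw [add_assoc, one_add_one_eq_two] at s2
  simp only [← dist_eq_norm] at n1 n2 n3 s1 s2 step2
  have u1 := dist_triangle4 (X a) (X x) (X (x + 1)) (X b)
  have u2 := dist_triangle4 (X b) (X (x + 1)) (X (x + 2)) (X d)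
  rw [dist_comm (X a) (X x)] at u1
  rw [dist_comm (X b) (X (x + 1))] at u2
  have v1 := dist_triangle4_right (X x) (X (x + 1)) (X a) (X b)
  have v2 := dist_triangle4_right (X (x + 1)) (X (x + 2)) (X b) (X d)
  have v3 := dist_triangle4_right (X x) (X (x + 2)) (X a) (X d)
  have i1 : 1 / (1 + η) + 2 * (η / (2 * (1 + η))) = 1 := by field_simp
  have i2 : 2 * (η / (2 * (1 + η))) < 1 / (1 + η) := by
    rw [show 2 * (η / (2 * (1 + η))) = η / (1 + η) by field_simp]
    exact div_lt_div_of_pos_right hη1 (by linarith)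
  have i3 : 1 + δ + 2 * (η / (2 * (1 + η))) ≤ τ / (1 + η) := by
    rw [show 2 * (η / (2 * (1 + η))) = η / (1 + η) by field_simp, ← le_sub_iff_add_le, ← sub_div,
      le_div_iff₀ (by linarith)]
    nlinarith
  obtain ⟨i, hi, rfl⟩ := mem_image.1 ha
  obtain ⟨j, hj, rfl⟩ := mem_image.1 hb
  obtain ⟨k, hk, rfl⟩ := mem_image.1 hd
  refine hI2 i hi j hj k hk ?_ ?_ ?_ ?_
  · rintro rfl; rw [dist_self] at v1; linarith
  · rintro rfl; rw [dist_self] at v2; linarith
  · rintro rfl; rw [dist_self] at v3; linarith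
  · simp only [← dist_eq_norm]
    exact ⟨by linarith, by linarith, by linarith⟩

theorem result (δ : ℝ) (h0 : 0 < δ) : Prp δ ↔ 1 ≤ δ :=
  ⟨fun h => not_lt.1 fun h1 => fails δ h0 h1 h, holds δ⟩

end Pool.Agent.Results.MP_8cfbc5_co.Threshold
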